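import Pool.Agent.AT2.Stmts
import Pool.Agent.Helper98_AT3.Fxs

/-!
# Squad AT2, row FXY
-/

open scoped BigOperators

noncomputable section

namespace Pool.Agent.PP.T2.H98

open Pool.Agent.Helper51_AWC Pool.Agent.Helper79_WRA Pool.Agent.PP Pool.Agent.PP.KF
open Pool.Agent.PP.K9 Pool.Agent.PP.K9.H97 Pool.Agent.PP.H75 Pool.Agent.PP.T3

theorem fxy (trg : T3.TrgStmt) (cyc : T3.CycStmt) (smg : T3.SmgStmt) (rot : K9.RotStmt) :
    T2.FxyStmt := by
  intro ℓ _ M _ hM G _ _ N hN e he y hy1 hy hcj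
  have := Fintype.ofFinite G
  exact T3.H98.fxy_sum trg cyc smg rot ℓ M hM G N hN e he y hy1 hy hcj

end Pool.Agent.PP.T2.H98
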