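import Pool.Agent.Helper98_AT3.Asm3
import Pool.Agent.Helper94_AT2.BJC
import Pool.Agent.Helper23_AT2.DVX
import Pool.Agent.Helper24_AT2.DZA
import Pool.Agent.Helper53_AT2.FN2
import Pool.Agent.Helper69_AT2.Fn3
import Pool.Agent.Helper83_AT2.FRS
import Pool.Agent.Helper32_AT2.FST
import Pool.Agent.Helper67_AT2.FXS
import Pool.Agent.Helper98_AT2.FXY
import Pool.Agent.Helper39_AT2.LB2
import Pool.Agent.Helper60_AT2.ORJ
import Pool.Agent.Helper72_AT2.ORT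
import Pool.Agent.Helper60_AT2.PR2
import Pool.Agent.Helper32_AT2.PWU
import Pool.Agent.Helper81_AT2.STG
import Pool.Agent.Helper92_AT2.T2A
import Pool.Agent.Helper25_AT2.TEA
import Pool.Agent.Helper69_AT2.Teb4
import Pool.Agent.Helper23_AT2.TES
import Pool.Agent.Helper86_AT2.TEX
import Pool.Agent.Helper65_AT2.TYA
import Pool.Agent.Helper81_AT2.TYQ
import Pool.Agent.Helper48_AT2.UX1
import Pool.Agent.Helper10_AT2.UX2
import Pool.Agent.Helper39_AT2.VJC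

/-!
# Squad AT2: the statements, closed
-/

noncomputable section

namespace Pool.Agent.PP.T2

theorem pr2_ : Pr2Stmt := H60.pr2
theorem fxy_ : FxyStmt := H98.fxy T3.trg_ T3.cyc_ T3.smg_ K9.rot_
theorem fxs_ : FxsStmt := H67.fxs fxy_ T3.lrk_
theorem ux1_ : Ux1Stmt := H48.ux1
theorem ux2_ : Ux2Stmt := H10.ux2
theorem vjc_ : VjcStmt := H39.vjc
theorem orj_ : OrjStmt := H60.orj T3.co2_ T3.lpw_ T3.fus_
theorem bjc_ : BjcStmt := H94.bjc T3.co1_ T3.bes_ T3.rgl_ T3.loc_ T3.lpw_ orj_ vjc_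
theorem bn2_ : Bn2Stmt := H94.bn2 T3.inr_ T3.glp_ T3.lsb_ K9.nz_ T3.rgl_ bjc_
theorem stg_ : StgStmt := H81.stg T3.dug_ T3.lpw_ T3.fus_ T3.lcj_
theorem lb2_ : Lb2Stmt := H39.lb2 pr2_ ux1_ ux2_ fxs_ stg_ bn2_
theorem pwu_ : PwuStmt := H32.pwu
theorem fst_ : FstStmt := H32.fst
theorem ort_ : OrtStmt := H72.ort pwu_
theorem frs_ : FrsStmt := H83.frs
theorem tya_ : TyaStmt := H65.tya pwu_ T3.qt1_ T3.qt2_ T3.lcj_
theorem tea_ : TeaStmt := H25.tea ort_ tya_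
theorem teb_ : TebStmt := H69.teb ort_ frs_
theorem tex_ : TexStmt := H86.tex pwu_ T3.qt1_ T3.qt2_ T3.lcj_
theorem tes_ : TesStmt := H23.tes pwu_ tea_ teb_ tex_
theorem tyq_ : TyqStmt := H81.tyq
theorem dvx_ : DvxStmt := H23.dvx
theorem t2a_ : T2aStmt := H92.t2a tyq_ fst_ tes_ lb2_ dvx_
theorem dza_ : DzaStmt := H24.dza T3.psg_
theorem fn2_ : Fn2Stmt := H53.fn2 t2a_ dza_
theorem fn3_ : Fn3Stmt := H69.fn3 T3.psg_ T3.flt_ T3.qt1_ T3.lcj_ T3.qt2_ t2a_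

end Pool.Agent.PP.T2
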